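import Pool.Agent.Helper79.NC.Spec2
import Pool.Agent.Helper74.NC.Iso

/-!
# Variations of geodesics (module M2 of `MP_4787eb_gt`)
-/

set_option maxSynthPendingDepth 3

namespace Pool.Agent.Helper79.NC

open scoped ContDiff Topology
open Set

section General

variable {E : Type*} [NormedAddCommGroup E] [NormedSpace ℝ E]

/-- Derivatives of a smooth family of curves with respect to the parameter. -/
theorem var_calc {ε : ℝ} {V : ℝ → ℝ → E} (hε : 0 < ε)
    (hV : ContDiffOn ℝ ∞ (fun p : ℝ × ℝ => V p.1 p.2) (Ioo (-ε) ε ×ˢ univ)) :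
    ContDiffOn ℝ ∞ (fun p : ℝ × ℝ => deriv (V p.1) p.2) (Ioo (-ε) ε ×ˢ univ) ∧
    ContDiff ℝ ∞ (fun t => deriv (fun s => V s t) 0) ∧
    (∀ t, HasDerivAt (fun s => V s t) (deriv (fun s => V s t) 0) 0) ∧
    ∀ t, HasDerivAt (fun s => deriv (V s) t) (deriv (fun t => deriv (fun s => V s t) 0) t) 0 := by
  set U : Set (ℝ × ℝ) := Ioo (-ε) ε ×ˢ univ with hU
  have hUo : IsOpen U := isOpen_Ioo.prod isOpen_univ
  set W : ℝ × ℝ → E := fun p => V p.1 p.2 with hWdef
  have hWa : ∀ p ∈ U, ContDiffAt ℝ ∞ W p := fun p hp => hV.contDiffAt (hUo.mem_nhds hp)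
  have h2i : (2 : WithTop ℕ∞) ≤ ∞ := WithTop.coe_le_coe.mpr (le_top : (2 : ℕ∞) ≤ ⊤)
  have hWd : ∀ p ∈ U, DifferentiableAt ℝ W p := fun p hp => (hWa p hp).differentiableAt (by simp)
  have hDW : ∀ p ∈ U, ContDiffAt ℝ ∞ (fderiv ℝ W) p := fun p hp =>
    (hWa p hp).fderiv_right (m := ∞) (by simp)
  set At : ℝ × ℝ → E := fun p => fderiv ℝ W p (0, 1) with hAt
  have hAta : ∀ p ∈ U, ContDiffAt ℝ ∞ At p := fun p hp =>
    (hDW p hp).clm_apply contDiffAt_const
  have h0U : ∀ t : ℝ, ((0 : ℝ), t) ∈ U := fun t => ⟨⟨by simpa using hε, hε⟩, mem_univ _⟩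
  have hline : ∀ p ∈ U, HasDerivAt (fun τ => (p.1, τ)) ((0, 1) : ℝ × ℝ) p.2 := fun p _ =>
    (hasDerivAt_const p.2 p.1).prodMk (hasDerivAt_id p.2)
  have hVt : ∀ p ∈ U, deriv (V p.1) p.2 = At p := by
    intro p hp
    have h1 := (hWd p hp).hasFDerivAt.comp_hasDerivAt p.2 (hline p hp)
    exact h1.deriv
  have hs0 : ∀ t : ℝ, HasDerivAt (fun s : ℝ => (s, t)) ((1, 0) : ℝ × ℝ) 0 := fun t =>
    (hasDerivAt_id 0).prodMk (hasDerivAt_const 0 t)
  have hJ3 : ∀ t, HasDerivAt (fun s => V s t) (fderiv ℝ W (0, t) (1, 0)) 0 := fun t =>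
    HasFDerivAt.comp_hasDerivAt (l := W) (f := fun s : ℝ => (s, t)) 0
      (hWd (0, t) (h0U t)).hasFDerivAt (hs0 t)
  have hJeq : (fun t => deriv (fun s => V s t) 0) = fun t => fderiv ℝ W (0, t) (1, 0) := by
    funext t
    exact (hJ3 t).deriv
  have hl0 : ∀ t : ℝ, HasDerivAt (fun τ : ℝ => ((0 : ℝ), τ)) ((0, 1) : ℝ × ℝ) t := fun t =>
    (hasDerivAt_const t 0).prodMk (hasDerivAt_id t)
  refine ⟨?_, ?_, ?_, ?_⟩
  · intro p hp
    refine ((hAta p hp).congr_of_eventuallyEq ?_).contDiffWithinAt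
    filter_upwards [hUo.mem_nhds hp] with q hq using hVt q hq
  · rw [hJeq, contDiff_iff_contDiffAt]
    intro t
    have h1 : ContDiffAt ℝ ∞ (fun τ : ℝ => ((0 : ℝ), τ)) t := contDiffAt_const.prodMk contDiffAt_id
    exact (ContDiffAt.comp (g := fderiv ℝ W) t (hDW (0, t) (h0U t)) h1).clm_apply contDiffAt_const
  · intro t
    rw [(hJ3 t).deriv]
    exact hJ3 t
  · intro t
    rw [hJeq]
    have hJd : HasDerivAt (fun t => fderiv ℝ W (0, t) (1, 0)) (fderiv ℝ At (0, t) (1, 0)) t := by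
      have h1 := HasFDerivAt.comp_hasDerivAt (l := fderiv ℝ W) (f := fun τ : ℝ => ((0 : ℝ), τ)) t
        (((hDW (0, t) (h0U t)).differentiableAt (by simp)).hasFDerivAt) (hl0 t)
      have h2 := h1.clm_apply (hasDerivAt_const t ((1, 0) : ℝ × ℝ))
      refine h2.congr_deriv ?_
      have hsymm := ((hWa (0, t) (h0U t)).isSymmSndFDerivAt (by simp; exact h2i)).eq (0, 1) (1, 0)
      simp only [Function.comp_apply, map_zero, add_zero]
      rw [hsymm]
      have h3 := ((hDW (0, t) (h0U t)).differentiableAt (by simp)).hasFDerivAt.clm_apply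
        (hasFDerivAt_const ((0, 1) : ℝ × ℝ) ((0 : ℝ), t))
      simp only [hAt]
      rw [h3.fderiv]
      simp
    rw [hJd.deriv]
    have h1 : HasDerivAt (fun s => At (s, t)) (fderiv ℝ At (0, t) (1, 0)) 0 :=
      HasFDerivAt.comp_hasDerivAt (l := At) (f := fun s : ℝ => (s, t)) 0
        (((hAta (0, t) (h0U t)).differentiableAt (by simp)).hasFDerivAt) (hs0 t)
    refine h1.congr_of_eventuallyEq ?_
    filter_upwards [Ioo_mem_nhds (show -ε < 0 by linarith) hε] with s hs
    exact hVt (s, t) ⟨hs, mem_univ _⟩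

theorem metric_hasFDerivAt {g : E → E →L[ℝ] E →L[ℝ] ℝ} (hg : IsRiemannianMetric g) (v w x : E) :
    HasFDerivAt (fun x => g x v w) (((fderiv ℝ g x).flip v).flip w) x := by
  have hgd : Differentiable ℝ g := hg.smooth.differentiable (by simp)
  have h1 := (hgd x).hasFDerivAt.clm_apply (hasFDerivAt_const v x)
  have h2 := h1.clm_apply (hasFDerivAt_const w x)
  refine h2.congr_fderiv ?_
  ext u
  simp

/-- The Euler-Lagrange equation paired with a vector field along the curve. -/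
theorem geodesic_pairing {g : E → E →L[ℝ] E →L[ℝ] ℝ} (hg : IsRiemannianMetric g) {c : ℝ → E}
    (hc : IsGeodesic g c) {J : ℝ → E} {J' : E} {t : ℝ} (hJ : HasDerivAt J J' t) :
    HasDerivAt (fun t => g (c t) (deriv c t) (J t))
      (1 / 2 * fderiv ℝ g (c t) (J t) (deriv c t) (deriv c t) + g (c t) (deriv c t) J') t := by
  have hgd : Differentiable ℝ g := hg.smooth.differentiable (by simp)
  have hcd : Differentiable ℝ c := hc.smooth.differentiable (by simp)
  have hcd' : Differentiable ℝ (deriv c) :=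
    (contDiff_infty_iff_deriv.mp hc.smooth).2.differentiable (by simp)
  -- the momentum is differentiable
  have h1 : HasDerivAt (fun τ => g (c τ)) (fderiv ℝ g (c t) (deriv c t)) t :=
    (hgd (c t)).hasFDerivAt.comp_hasDerivAt t (hcd t).hasDerivAt
  have h2 := h1.clm_apply (hcd' t).hasDerivAt
  set L : E →L[ℝ] ℝ := (fderiv ℝ g (c t) (deriv c t)) (deriv c t) + (g (c t)) (deriv (deriv c) t)
    with hL
  have h3 : ∀ e : E, L e = 1 / 2 * fderiv ℝ g (c t) e (deriv c t) (deriv c t) := by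
    intro e
    have h4 := (h2.clm_apply (hasDerivAt_const t e)).deriv
    have h5 := hc.eq t e
    rw [h4, (metric_hasFDerivAt hg _ _ _).fderiv] at h5
    simpa using h5
  have h6 := h2.clm_apply hJ
  refine h6.congr_deriv ?_
  rw [h3]

theorem geodesic_energy {g : E → E →L[ℝ] E →L[ℝ] ℝ} (hg : IsRiemannianMetric g) {c : ℝ → E}
    (hc : IsGeodesic g c) (t t' : ℝ) :
    g (c t) (deriv c t) (deriv c t) = g (c t') (deriv c t') (deriv c t') := by
  have hgd : Differentiable ℝ g := hg.smooth.differentiable (by simp)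
  have hcd : Differentiable ℝ c := hc.smooth.differentiable (by simp)
  have hcd' : Differentiable ℝ (deriv c) :=
    (contDiff_infty_iff_deriv.mp hc.smooth).2.differentiable (by simp)
  have h0 : ∀ t, HasDerivAt (fun t => g (c t) (deriv c t) (deriv c t)) 0 t := by
    intro t
    have h1 := geodesic_pairing hg hc (hcd' t).hasDerivAt
    have h2 : HasDerivAt (fun τ => g (c τ)) (fderiv ℝ g (c t) (deriv c t)) t :=
      (hgd (c t)).hasFDerivAt.comp_hasDerivAt t (hcd t).hasDerivAt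
    have h3 := (h2.clm_apply (hcd' t).hasDerivAt).clm_apply (hcd' t).hasDerivAt
    have h4 := h1.unique h3
    simp only [add_apply] at h4
    have h5 := hg.symm (c t) (deriv (deriv c) t) (deriv c t)
    refine h1.congr_deriv ?_
    rw [h5] at h4
    linarith
  exact is_const_of_deriv_eq_zero (fun t => (h0 t).differentiableAt) (fun t => (h0 t).deriv) t t'

theorem jacobi_affine {g : E → E →L[ℝ] E →L[ℝ] ℝ} (hg : IsRiemannianMetric g) {c J : ℝ → E}
    (hc : IsGeodesic g c) (hJ : IsJacobiField g c J) :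
    ∃ α β : ℝ, ∀ t, g (c t) (J t) (deriv c t) = α * t + β := by
  obtain ⟨ε, V, hε, hV, hgeoV, hV0, hJV⟩ := hJ
  obtain ⟨-, hJs, hJ3, hJ4⟩ := var_calc hε hV
  have hJfun : (fun t => deriv (fun s => V s t) 0) = J := (funext hJV).symm
  rw [hJfun] at hJs hJ4
  have hJd : Differentiable ℝ J := hJs.differentiable (by simp)
  have hgd : Differentiable ℝ g := hg.smooth.differentiable (by simp)
  -- derivative of the energy with respect to the parameter
  have h1 : ∀ t, HasDerivAt (fun s => g (V s t) (deriv (V s) t) (deriv (V s) t))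
      (fderiv ℝ g (c t) (J t) (deriv c t) (deriv c t) + 2 * g (c t) (deriv c t) (deriv J t)) 0 := by
    intro t
    have e1 : HasDerivAt (fun s => V s t) (J t) 0 := by
      have := hJ3 t
      rwa [← hJV t] at this
    have e2 : HasDerivAt (fun s => g (V s t)) (fderiv ℝ g (c t) (J t)) 0 := by
      have e3 : HasFDerivAt g (fderiv ℝ g (c t)) (V 0 t) := by
        rw [hV0]
        exact (hgd (c t)).hasFDerivAt
      exact e3.comp_hasDerivAt (0 : ℝ) e1
    have e4 := (e2.clm_apply (hJ4 t)).clm_apply (hJ4 t)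
    refine e4.congr_deriv ?_
    simp only [add_apply, hV0]
    rw [hg.symm (c t) (deriv J t) (deriv c t)]
    ring
  set γ : ℝ := fderiv ℝ g (c 0) (J 0) (deriv c 0) (deriv c 0) + 2 * g (c 0) (deriv c 0) (deriv J 0)
    with hγ
  have h2 : ∀ t, fderiv ℝ g (c t) (J t) (deriv c t) (deriv c t)
      + 2 * g (c t) (deriv c t) (deriv J t) = γ := by
    intro t
    have h3 : (fun s => g (V s t) (deriv (V s) t) (deriv (V s) t)) =ᶠ[𝓝 0]
        fun s => g (V s 0) (deriv (V s) 0) (deriv (V s) 0) := by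
      filter_upwards [Ioo_mem_nhds (show -ε < 0 by linarith) hε] with s hs
      exact geodesic_energy hg (hgeoV s hs) t 0
    exact ((h1 0).congr_of_eventuallyEq h3).unique (h1 t) |>.symm
  have h4 : ∀ t, HasDerivAt (fun t => g (c t) (deriv c t) (J t)) (γ / 2) t := by
    intro t
    refine (geodesic_pairing hg hc (hJd t).hasDerivAt).congr_deriv ?_
    rw [← h2 t]
    ring
  have h5 : ∀ t, HasDerivAt (fun t => g (c t) (deriv c t) (J t) - γ / 2 * t) 0 t := by
    intro t
    refine ((h4 t).sub ((hasDerivAt_id' t).const_mul (γ / 2))).congr_deriv ?_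
    ring
  refine ⟨γ / 2, g (c 0) (deriv c 0) (J 0), fun t => ?_⟩
  have h6 := is_const_of_deriv_eq_zero (fun t => (h5 t).differentiableAt)
    (fun t => (h5 t).deriv) t 0
  simp only [mul_zero, sub_zero] at h6
  rw [hg.symm, ← h6]
  ring

end General

theorem variationCalc : VariationCalc := by
  intro ε V hε hV
  obtain ⟨h1, h2, h3, h4⟩ := var_calc hε hV
  have h5 : (fun t => deriv (fun s => deriv (V s) t) 0) =
      fun t => deriv (fun t => deriv (fun s => V s t) 0) t := by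
    funext t
    exact (h4 t).deriv
  obtain ⟨-, -, -, h9⟩ := var_calc (V := fun s => deriv (V s)) hε h1
  refine ⟨h2, fun t => ⟨h3 t, h4 t, ?_⟩⟩
  have h10 := h9 t
  rw [h5] at h10
  exact h10

theorem jacobiAffine : JacobiAffine := fun _ hg _ _ hc hJ => jacobi_affine hg hc hJ

theorem isoJacobi : IsoJacobi := by
  intro g φ ψ hg hφ hψ hψφ hφψ hiso c J hc hJ
  obtain ⟨ε, V, hε, hV, hgeoV, hV0, hJV⟩ := hJ
  obtain ⟨-, -, hJ3, -⟩ := var_calc hε hV
  refine ⟨ε, fun s t => φ (V s t), hε, hφ.comp_contDiffOn hV, fun s hs => ?_, ?_, fun t => ?_⟩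
  · exact isoGeodesic g φ ψ hg hφ hψ hψφ hφψ hiso (V s) (hgeoV s hs)
  · rw [← hV0]
  · have h1 : HasFDerivAt φ (fderiv ℝ φ (c t)) (V 0 t) := by
      rw [hV0]
      exact ((hφ.differentiable (by simp)) (c t)).hasFDerivAt
    have h2 := h1.comp_hasDerivAt (0 : ℝ) (hJ3 t)
    rw [← hJV t] at h2
    exact h2.deriv.symm

end Pool.Agent.Helper79.NC
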